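import Mathlib

/-!
# Pairwise disjoint orbits of `n ↦ n + 1 + S n`: at most `π (x / 2) + √x (log₂ x + 1)` start below `x`
-/

set_option autoImplicit false

namespace Pool.Agent.Results.MP_88d2e3_nt.DisjointOrbitsBound

open Finset

/-- The sum of the distinct primes `p` that divide `n` and satisfy `p < n`. -/
def S (n : ℕ) : ℕ := ∑ p ∈ n.primeFactors.filter (fun p => p < n), p

/-- The map `n ↦ n + 1 + S n`. -/
def f (n : ℕ) : ℕ := n + 1 + S n

/-- The orbit of `k`, including `k`. -/
def orbit (k : ℕ) : Set ℕ := {y | ∃ i : ℕ, f^[i] k = y}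

theorem lt_f (n : ℕ) : n < f n := by unfold f; omega

theorem iterate_ge (k i : ℕ) : k + i ≤ f^[i] k := by
  induction i with
  | zero => simp
  | succ i ih =>
    rw [Function.iterate_succ_apply']
    have := lt_f (f^[i] k)
    omega

theorem exists_crossing {x k : ℕ} (hk : k ≤ x) : ∃ n ∈ orbit k, k ≤ n ∧ n ≤ x ∧ x < f n := by
  classical
  have hex : ∃ i, x < f^[i] k := ⟨x + 1, by have := iterate_ge k (x + 1); omega⟩
  have h1 := Nat.find_spec hex
  have h0 : Nat.find hex ≠ 0 := by
    intro h0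
    rw [h0] at h1
    simp only [Function.iterate_zero, id_eq] at h1
    omega
  obtain ⟨i, hi⟩ := Nat.exists_eq_succ_of_ne_zero h0
  have h2 := Nat.find_min hex (m := i) (by omega)
  rw [hi, Function.iterate_succ_apply'] at h1
  exact ⟨f^[i] k, ⟨i, rfl⟩, by have := iterate_ge k i; omega, by omega, h1⟩

theorem sum_le_prod (s : Finset ℕ) (h : ∀ q ∈ s, 2 ≤ q) : ∑ q ∈ s, q ≤ ∏ q ∈ s, q := by
  classical
  induction s using Finset.induction_on with
  | empty => simp
  | insert a s ha ih =>
    rw [Finset.sum_insert ha, Finset.prod_insert ha]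
    have h2 : 2 ≤ a := h a (Finset.mem_insert_self _ _)
    have ih' := ih fun q hq => h q (Finset.mem_insert_of_mem hq)
    rcases s.eq_empty_or_nonempty with rfl | ⟨q, hq⟩
    · simp
    · have h3 : 2 ≤ ∏ q ∈ s, q := by
        have : q ≤ ∏ q ∈ s, q := Finset.single_le_prod'
          (fun i hi => le_trans (by norm_num) (h i (Finset.mem_insert_of_mem hi))) hq
        have := h q (Finset.mem_insert_of_mem hq)
        omega
      nlinarith

theorem sum_primeFactors_le {m : ℕ} (hm : 0 < m) : ∑ q ∈ m.primeFactors, q ≤ m :=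
  (sum_le_prod _ fun _ hq => (Nat.prime_of_mem_primeFactors hq).two_le).trans
    (Nat.le_of_dvd hm (Nat.prod_primeFactors_dvd m))

theorem card_primeFactors_le {n : ℕ} (hn : 0 < n) : n.primeFactors.card ≤ Nat.log 2 n := by
  refine Nat.le_log_of_pow_le (by omega) ?_
  calc 2 ^ n.primeFactors.card ≤ ∏ q ∈ n.primeFactors, q :=
        Finset.pow_card_le_prod _ _ _ fun q hq => (Nat.prime_of_mem_primeFactors hq).two_le
    _ ≤ n := Nat.le_of_dvd hn (Nat.prod_primeFactors_dvd n)

/-- primes in `[x / (m + 1), x / m]` -/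
def P (x m : ℕ) : Finset ℕ := (Icc (x / (m + 1)) (x / m)).filter Nat.Prime

theorem mem_cover {x n : ℕ} (hn : 0 < n) (hnx : n ≤ x) (h : x < f n) :
    n ∈ Icc (x - Nat.sqrt x * Nat.log 2 x) x ∪
      (Icc 2 (Nat.sqrt x)).biUnion (fun m => (P x m).image (fun p => m * p)) := by
  classical
  have hS : x ≤ n + S n := by unfold f at h; omega
  rw [mem_union]
  by_cases hA : ∀ p ∈ n.primeFactors, p * p ≤ n
  · left
    rw [mem_Icc]
    refine ⟨?_, hnx⟩
    have h1 : S n ≤ n.primeFactors.card * Nat.sqrt n := by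
      unfold S
      calc ∑ p ∈ n.primeFactors.filter (fun p => p < n), p
          ≤ ∑ p ∈ n.primeFactors, p := Finset.sum_le_sum_of_subset (Finset.filter_subset _ _)
        _ ≤ ∑ _p ∈ n.primeFactors, Nat.sqrt n :=
            Finset.sum_le_sum fun p hp => Nat.le_sqrt.2 (hA p hp)
        _ = n.primeFactors.card * Nat.sqrt n := by rw [Finset.sum_const, smul_eq_mul]
    have h2 : n.primeFactors.card * Nat.sqrt n ≤ Nat.log 2 x * Nat.sqrt x :=
      Nat.mul_le_mul ((card_primeFactors_le hn).trans (Nat.log_mono_right hnx))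
        (Nat.sqrt_le_sqrt hnx)
    rw [mul_comm (Nat.log 2 x)] at h2
    omega
  · obtain ⟨p, hp'⟩ := not_forall.1 hA
    rw [Classical.not_imp, not_le] at hp'
    obtain ⟨hp, hpn⟩ := hp'
    have hpp := Nat.prime_of_mem_primeFactors hp
    obtain ⟨m, rfl⟩ := Nat.dvd_of_mem_primeFactors hp
    have hm0 : 0 < m := Nat.pos_of_ne_zero fun h0 => by subst h0; omega
    have hmp : m < p := lt_of_mul_lt_mul_left hpn (Nat.zero_le p)
    by_cases hm1 : m = 1
    · left
      subst hm1
      have hS0 : S (p * 1) = 0 := by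
        unfold S
        rw [mul_one, hpp.primeFactors]
        rw [Finset.sum_eq_zero]
        intro q hq
        rw [mem_filter, mem_singleton] at hq
        omega
      rw [mem_Icc]
      omega
    · right
      have hcop : Nat.Coprime p m :=
        (Nat.Prime.coprime_iff_not_dvd hpp).2
          fun hd => absurd (Nat.le_of_dvd hm0 hd) (by omega)
      have h1 : S (p * m) ≤ p + m := by
        unfold S
        calc ∑ q ∈ (p * m).primeFactors.filter (fun q => q < p * m), q
            ≤ ∑ q ∈ (p * m).primeFactors, q :=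
              Finset.sum_le_sum_of_subset (Finset.filter_subset _ _)
          _ = ∑ q ∈ p.primeFactors, q + ∑ q ∈ m.primeFactors, q := by
              rw [hcop.primeFactors_mul, Finset.sum_union hcop.disjoint_primeFactors]
          _ ≤ p + m := by
              rw [hpp.primeFactors, Finset.sum_singleton]
              exact Nat.add_le_add_left (sum_primeFactors_le hm0) _
      rw [mem_biUnion]
      refine ⟨m, ?_, ?_⟩
      · rw [mem_Icc]
        refine ⟨by omega, Nat.le_sqrt.2 ?_⟩
        have := Nat.mul_le_mul_right m hmp.le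
        omega
      · rw [mem_image]
        refine ⟨p, ?_, mul_comm m p⟩
        unfold P
        rw [mem_filter, mem_Icc]
        refine ⟨⟨?_, ?_⟩, hpp⟩
        · refine Nat.lt_succ_iff.1 ?_
          rw [Nat.div_lt_iff_lt_mul (by omega)]
          have : p.succ * (m + 1) = p * m + p + m + 1 := by rw [Nat.succ_eq_add_one]; ring
          omega
        · rw [Nat.le_div_iff_mul_le hm0]
          exact hnx

theorem card_P {x m : ℕ} (hm : 0 < m) :
    (P x m).card + Nat.primeCounting (x / (m + 1)) ≤ Nat.primeCounting (x / m) + 1 := by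
  classical
  have hab : x / (m + 1) ≤ x / m := Nat.div_le_div_left (by omega) hm
  have hc : ∀ n, Nat.primeCounting n = ((range (n + 1)).filter Nat.Prime).card := by
    intro n
    rw [Nat.primeCounting, Nat.primeCounting', Nat.count_eq_card_filter_range]
  rw [hc, hc]
  unfold P
  have h1 := Finset.card_union_add_card_inter ((Icc (x / (m + 1)) (x / m)).filter Nat.Prime)
    ((range (x / (m + 1) + 1)).filter Nat.Prime)
  have h2 : ((Icc (x / (m + 1)) (x / m)).filter Nat.Prime ∪
      (range (x / (m + 1) + 1)).filter Nat.Prime).card ≤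
      ((range (x / m + 1)).filter Nat.Prime).card := by
    refine Finset.card_le_card fun q hq => ?_
    rw [mem_union, mem_filter, mem_filter, mem_Icc, mem_range] at hq
    rw [mem_filter, mem_range]
    rcases hq with ⟨⟨_, h4⟩, hp⟩ | ⟨h4, hp⟩
    · exact ⟨by omega, hp⟩
    · exact ⟨by omega, hp⟩
  have h3 : ((Icc (x / (m + 1)) (x / m)).filter Nat.Prime ∩
      (range (x / (m + 1) + 1)).filter Nat.Prime).card ≤ 1 := by
    refine (Finset.card_le_card (t := {x / (m + 1)}) fun q hq => ?_).trans (by simp)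
    rw [mem_inter, mem_filter, mem_filter, mem_Icc, mem_range] at hq
    rw [mem_singleton]
    obtain ⟨⟨⟨h4, _⟩, _⟩, h5, _⟩ := hq
    omega
  omega

theorem sum_P (x : ℕ) : ∀ s, 1 ≤ s → ∑ m ∈ Icc 2 s, (P x m).card +
    Nat.primeCounting (x / (s + 1)) ≤ Nat.primeCounting (x / 2) + (s - 1) := by
  intro s hs
  induction s, hs using Nat.le_induction with
  | base => simp
  | succ s hs ih =>
    rw [Finset.sum_Icc_succ_top (by omega)]
    have := card_P (x := x) (m := s + 1) (by omega)
    omega

/-- If the orbits of the elements of a finite set `K ⊆ {1, ..., x}` are pairwise disjoint, then `K`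
has at most `π (⌊x / 2⌋) + ⌊√x⌋ (⌊log₂ x⌋ + 1)` elements. -/
theorem result (x : ℕ) (K : Finset ℕ) (hK : ∀ k ∈ K, 1 ≤ k ∧ k ≤ x)
    (hd : ∀ j ∈ K, ∀ k ∈ K, j ≠ k → Disjoint (orbit j) (orbit k)) :
    K.card ≤ Nat.primeCounting (x / 2) + Nat.sqrt x * (Nat.log 2 x + 1) := by
  classical
  rcases K.eq_empty_or_nonempty with rfl | ⟨k0, hk0⟩
  · simp
  have hx : 1 ≤ x := (hK k0 hk0).1.trans (hK k0 hk0).2
  have hs : 1 ≤ Nat.sqrt x := Nat.le_sqrt.2 (by omega)
  set T : Finset ℕ := Icc (x - Nat.sqrt x * Nat.log 2 x) x ∪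
      (Icc 2 (Nat.sqrt x)).biUnion (fun m => (P x m).image (fun p => m * p)) with hT
  have hg : ∀ k ∈ K, ∃ n ∈ T, n ∈ orbit k := by
    intro k hk
    obtain ⟨n, hn, h1, h2, h3⟩ := exists_crossing (hK k hk).2
    exact ⟨n, mem_cover (by have := (hK k hk).1; omega) h2 h3, hn⟩
  choose! g hg1 hg2 using hg
  have hcard : K.card ≤ T.card := by
    refine Finset.card_le_card_of_injOn g (fun k hk => hg1 k hk) ?_
    intro j hj k hk hjk
    by_contra hne
    exact Set.disjoint_left.1 (hd j hj k hk hne) (hg2 j hj) (hjk ▸ hg2 k hk)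
  have hTc : T.card ≤ (Nat.sqrt x * Nat.log 2 x + 1) + ∑ m ∈ Icc 2 (Nat.sqrt x), (P x m).card := by
    rw [hT]
    refine (Finset.card_union_le _ _).trans (Nat.add_le_add ?_ ?_)
    · rw [Nat.card_Icc]; omega
    · exact Finset.card_biUnion_le.trans (Finset.sum_le_sum fun m _ => Finset.card_image_le)
  have hsum := sum_P x (Nat.sqrt x) hs
  rw [Nat.mul_add, Nat.mul_one]
  omega

end Pool.Agent.Results.MP_88d2e3_nt.DisjointOrbitsBound
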